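import Pool.Agent.W544.PG.Defs5
import Pool.Agent.W338.PG.GHT

/-!
Project PG part 4 (owner helper544), part GHTP: from `T` to the total cohomology, coloured version.
The one-colour version is `Pool.Agent.W338.PG.GHT`.
-/

set_option autoImplicit false

open Matrix Finset Module

namespace Pool.Agent.W352.PG.Ghtp

open Pool.Agent.W544.PG Pool.Agent.W338.PG.Ght

noncomputable section

variable {n s m k : ℕ}

variable {q : Fin m → Fin s ⊕ Fin k} {ε : Fin k → Fin m}

theorem ins20 (T : HS n) {r : ℕ} (c : Fin n → Fin r) (a' : Fin k → Fin r)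
    (g : (Fin k → Fin n) → ℚ) : g ∈ T.ins2 c a' 0 := by
  refine Submodule.subset_span ⟨id, g, fun _ => rfl, fun _ => rfl, by simp, fun J J' h => ?_,
    fun J => ?_⟩
  · rw [show J = J' from funext fun j => h j rfl]
  · simp

theorem rho_coniv2 (T : HS n) {r : ℕ} (c : Fin n → Fin r) (d : Fin s → Fin r) (h : Pt q ε)
    (cd : Fin s → ℕ) (a : Fin m → Fin r) (hd : ∀ i b, q i = Sum.inl b → d b = a i) (l j : ℕ)
    (hj : j ≤ ∑ i, Sum.elim cd (fun _ => 0) (q i) + 2 * l) {g : (Fin k → Fin n) → ℚ}
    (hg : g ∈ T.ins2 c (fun i' => a (ε i')) l) : rho q g ∈ T.coniv2 c d cd a j := by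
  have key : (T.ins2 c (fun i' => a (ε i')) l).map (rho q) ≤ T.coniv2 c d cd a j := by
    unfold HS.ins2
    rw [Submodule.map_span_le]
    rintro f ⟨σ, u, hσ, hσa, hl, hu, hf⟩
    classical
    obtain ⟨σ', hσ'⟩ : ∃ σ' : Fin m → Fin m, ∀ i, σ' i =
      Sum.elim (fun _ => i) (fun i' => ε (σ i')) (q i) := ⟨_, fun _ => rfl⟩
    obtain ⟨ν, hν⟩ : ∃ ν : Fin m → Fin s → ℚ, ∀ i, ν i =
      Sum.elim (fun a => Pi.single a 1) (fun _ => 0) (q i) := ⟨_, fun _ => rfl⟩
    obtain ⟨u', hu1, hu2⟩ : ∃ u' : (Fin m → Fin s ⊕ Fin n) → ℚ,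
        (∀ J K, (∀ i', σ i' = i' → J (ε i') = Sum.inr (K i')) → u' J = u K) ∧
        ∀ J, (¬ ∃ K : Fin k → Fin n, ∀ i', σ i' = i' → J (ε i') = Sum.inr (K i')) →
          u' J = 0 := by
      refine ⟨fun J => if h : ∃ K : Fin k → Fin n, ∀ i', σ i' = i' →
        J (ε i') = Sum.inr (K i') then u (Classical.choose h) else 0, ?_, ?_⟩
      · intro J K hK
        have hex : ∃ K : Fin k → Fin n, ∀ i', σ i' = i' → J (ε i') = Sum.inr (K i') := ⟨K, hK⟩
        beta_reduce
        rw [dif_pos hex]
        refine hu _ _ fun i' hi' => ?_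
        have h1 := Classical.choose_spec hex i' hi'
        rw [hK i' hi'] at h1
        exact (Sum.inr_injective h1).symm
      · intro J hJ
        beta_reduce
        rw [dif_neg hJ]
    have hσe : ∀ i', σ' (ε i') = ε (σ i') := fun i' => by rw [hσ', h.qe]; rfl
    refine Submodule.subset_span ⟨univ.filter (fun i => (q i).isLeft = true), σ',
      fun i => Sum.elim cd (fun _ => 0) (q i), ν, u', fun i => ?_, fun i => ?_, fun i hi => ?_,
      fun i b hb => ?_, fun J J' hJ => ?_, ?_, fun J => ?_⟩
    · rcases hq : q i with b | i'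
      · have h1 : σ' i = i := by rw [hσ', hq]; rfl
        rw [h1, h1]
      · rw [← h.eq i i' hq, hσe, hσe, hσ]
    · rcases hq : q i with b | i'
      · have h1 : σ' i = i := by rw [hσ', hq]; rfl
        rw [h1]
      · rw [← h.eq i i' hq, hσe]
        exact hσa i'
    · rw [mem_filter] at hi
      rcases hq : q i with b | i'
      · rw [hσ', hq]; rfl
      · rw [hq] at hi
        exact absurd hi.2 (by simp)
    · rw [hν] at hb
      rcases hq : q i with b' | i'
      · rw [hq, Sum.elim_inl] at hb
        have : b = b' := by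
          by_contra hab
          exact hb (Pi.single_eq_of_ne hab 1)
        beta_reduce
        rw [this, hq]
        exact ⟨rfl, hd i b' hq⟩
      · rw [hq, Sum.elim_inr] at hb
        exact absurd rfl hb
    · have h1 : ∀ i', σ i' = i' → J (ε i') = J' (ε i') := fun i' hi' => by
        refine hJ _ ?_ ?_
        · rw [mem_filter, h.qe]
          simp
        · rw [hσe, hi']
      by_cases hex : ∃ K : Fin k → Fin n, ∀ i', σ i' = i' → J (ε i') = Sum.inr (K i')
      · obtain ⟨K, hK⟩ := hex
        rw [hu1 J K hK, hu1 J' K fun i' hi' => by rw [← h1 i' hi']; exact hK i' hi']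
      · rw [hu2 J hex, hu2 J']
        rintro ⟨K, hK⟩
        exact hex ⟨K, fun i' hi' => by rw [h1 i' hi']; exact hK i' hi'⟩
    · have h1 : ∑ i ∈ univ.filter (fun i => (q i).isLeft = true),
          Sum.elim cd (fun _ => 0) (q i) = ∑ i, Sum.elim cd (fun _ => 0) (q i) := by
        refine sum_subset (filter_subset _ _) fun i _ hi => ?_
        rw [mem_filter] at hi
        rcases hq : q i with b | i'
        · exfalso
          apply hi
          rw [hq]
          exact ⟨mem_univ _, rfl⟩
        · rfl
      have h2 : (univ.filter fun i' => σ i' ≠ i').card ≤ (univ.filter fun i => σ' i ≠ i).card := by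
        refine card_le_card_of_injOn ε (fun i' hi' => ?_) (h.mono.injective.injOn)
        have h3 := (mem_filter.1 (mem_coe.1 hi')).2
        refine mem_coe.2 (mem_filter.2 ⟨mem_univ _, ?_⟩)
        rw [hσe]
        exact fun he => h3 (h.mono.injective he)
      rw [h1]
      omega
    · by_cases hJ : ∃ K, mrg q K = J
      · obtain ⟨K, rfl⟩ := hJ
        rw [rho_mrg h, hf K, hu1 _ K fun i' _ => mrg_e h K i']
        have h1 : ∏ i ∈ univ.filter (fun i => (q i).isLeft = true),
            Sum.elim (ν i) (fun _ => (0 : ℚ)) (mrg q K i) = 1 := by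
          refine prod_eq_one fun i hi => ?_
          rw [mem_filter] at hi
          rw [hν]
          unfold mrg
          rcases hq : q i with b | i'
          · simp
          · rw [hq] at hi
            exact absurd hi.2 (by simp)
        have h2 : (univ.filter fun i => i < σ' i) =
            (univ.filter fun i' => i' < σ i').image ε := by
          ext i
          rw [mem_filter, mem_image]
          constructor
          · rintro ⟨-, hi⟩
            rcases hq : q i with b | i'
            · rw [hσ', hq, Sum.elim_inl] at hi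
              exact absurd hi (lt_irrefl _)
            · have h3 := h.eq i i' hq
              rw [← h3, hσe] at hi
              exact ⟨i', mem_filter.2 ⟨mem_univ _, h.mono.lt_iff_lt.1 hi⟩, h3⟩
          · rintro ⟨i', hi', rfl⟩
            refine ⟨mem_univ _, ?_⟩
            rw [hσe]
            exact h.mono (mem_filter.1 hi').2
        rw [h1, one_mul, h2, prod_image (fun a _ b _ hab => h.mono.injective hab)]
        congr 1
        refine prod_congr rfl fun i' _ => ?_
        rw [hσe, mrg_e h, mrg_e h, fromBlocks_apply₂₂, Sum.elim_inr]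
      · rw [rho_not _ _ fun K hK => hJ ⟨K, hK⟩]
        by_contra hne
        have hne' := Ne.symm hne
        obtain ⟨h12, h3⟩ := mul_ne_zero_iff.1 hne'
        obtain ⟨h1, h2⟩ := mul_ne_zero_iff.1 h12
        rw [prod_ne_zero_iff] at h1 h2
        have a1 : ∀ i b, q i = Sum.inl b → J i = Sum.inl b := by
          intro i b hb
          have h4 := h1 i (mem_filter.2 ⟨mem_univ _, by rw [hb]; rfl⟩)
          rw [hν, hb, Sum.elim_inl] at h4
          rcases hJi : J i with a | a
          · rw [hJi, Sum.elim_inl] at h4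
            by_contra hab
            refine h4 (Pi.single_eq_of_ne (fun he => hab ?_) 1)
            rw [he]
          · rw [hJi, Sum.elim_inr] at h4
            exact absurd rfl h4
        have a2 : ∀ i', i' < σ i' → (∃ c, J (ε i') = Sum.inr c) ∧
            ∃ c, J (ε (σ i')) = Sum.inr c := by
          intro i' hi'
          have h4 := h2 (ε i') (mem_filter.2 ⟨mem_univ _, by rw [hσe]; exact h.mono hi'⟩)
          rw [hσe] at h4
          have h5 : fromBlocks (0 : Matrix (Fin s) (Fin s) ℚ) 0 0 T.Q (J (ε i'))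
              (J (ε (σ i'))) ≠ 0 := by
            intro h0
            apply h4
            rw [h0, ite_self]
          rcases hJ1 : J (ε i') with a | a <;> rcases hJ2 : J (ε (σ i')) with b | b
          · rw [hJ1, hJ2, fromBlocks_apply₁₁] at h5
            exact absurd rfl h5
          · rw [hJ1, hJ2, fromBlocks_apply₁₂] at h5
            exact absurd rfl h5
          · rw [hJ1, hJ2, fromBlocks_apply₂₁] at h5
            exact absurd rfl h5
          · exact ⟨⟨a, rfl⟩, b, rfl⟩
        have a3 : ∃ K0 : Fin k → Fin n, ∀ i', σ i' = i' → J (ε i') = Sum.inr (K0 i') := by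
          by_contra hno
          exact h3 (hu2 J hno)
        obtain ⟨K0, hK0⟩ := a3
        have a4 : ∀ i', ∃ c, J (ε i') = Sum.inr c := by
          intro i'
          rcases lt_trichotomy i' (σ i') with hlt | heq | hgt
          · exact (a2 i' hlt).1
          · exact ⟨_, hK0 i' heq.symm⟩
          · have h4 := (a2 (σ i') (by rw [hσ]; exact hgt)).2
            rwa [hσ] at h4
        choose K hK using a4
        refine hJ ⟨K, funext fun i => ?_⟩
        unfold mrg
        rcases hq : q i with b | i'
        · rw [a1 i b hq]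
          rfl
        · rw [← h.eq i i' hq, hK]
          rfl
  exact key ⟨g, hg, rfl⟩

theorem ghtp : S_ghtp := by
  intro n r s m c j T cc d cd a p H W hWs hWc hWa w hw
  classical
  -- the parts of `w`
  have hsum : w = ∑ q' : Fin m → Option (Fin s), fun J =>
      if (fun i => Sum.elim some (fun _ => none) (J i)) = q' then w J else 0 := by
    funext J
    rw [Finset.sum_apply, Finset.sum_ite_eq, if_pos (mem_univ _)]
  rw [hsum]
  refine Submodule.sum_mem _ fun q' _ => ?_
  obtain ⟨k, q, ε, h, hq'⟩ := pt_exists q'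
  have hpart : (fun J => if (fun i => Sum.elim some (fun _ => none) (J i)) = q' then w J else 0) =
      rho q (fun K => w (mrg q K)) := by
    funext J
    by_cases hJ : ∃ K, mrg q K = J
    · obtain ⟨K, rfl⟩ := hJ
      rw [rho_mrg h, if_pos]
      funext i
      rw [hq' i]
      unfold mrg
      rcases q i with a | i' <;> rfl
    · rw [rho_not _ _ fun K hK => hJ ⟨K, hK⟩, if_neg]
      intro he
      have h1 : ∀ i', ∃ c, J (ε i') = Sum.inr c := by
        intro i'
        have h2 := congrFun he (ε i')
        rw [hq' (ε i'), h.qe, Sum.elim_inr] at h2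
        rcases hJi : J (ε i') with a | a
        · rw [hJi] at h2
          exact absurd h2 (by simp)
        · exact ⟨a, rfl⟩
      choose K hK using h1
      refine hJ ⟨K, funext fun i => ?_⟩
      unfold mrg
      rcases hq : q i with b | i'
      · have h2 := congrFun he i
        rw [hq' i, hq, Sum.elim_inl] at h2
        rcases hJi : J i with a | a
        · rw [hJi, Sum.elim_inl] at h2
          rw [Option.some_injective _ h2]
          rfl
        · rw [hJi] at h2
          exact absurd h2 (by simp)
      · rw [← h.eq i i' hq, hK]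
        rfl
  rw [hpart]
  by_cases hz : ∀ w₁ ∈ W, ∀ K : Fin k → Fin n, w₁ (mrg q K) = 0
  · have h1 : (fun K : Fin k → Fin n => w (mrg q K)) = 0 := funext fun K => hz w hw K
    rw [h1, map_zero]
    exact Submodule.zero_mem _
  push Not at hz
  obtain ⟨w₁, hw₁, K₁, hK₁⟩ := hz
  obtain ⟨hcol, hc, hkp⟩ := hWc w₁ hw₁ _ hK₁
  have hd : ∀ i b, q i = Sum.inl b → d b = a i := by
    intro i b hb
    have h1 := hcol i
    unfold mrg at h1
    rw [hb] at h1
    exact h1
  have hcK : ∀ i', cc (K₁ i') = a (ε i') := by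
    intro i'
    have h1 := hcol (ε i')
    rw [mrg_e h] at h1
    exact h1
  have hcard : (univ.filter fun i => (mrg q K₁ i).isRight = true).card = k := by
    have h1 : (univ.filter fun i => (mrg q K₁ i).isRight = true) = univ.image ε := by
      ext i
      rw [mem_filter, mem_image]
      constructor
      · rintro ⟨-, hi⟩
        unfold mrg at hi
        rcases hq : q i with b | i'
        · rw [hq] at hi
          exact absurd hi (by simp)
        · exact ⟨i', mem_univ _, h.eq i i' hq⟩
      · rintro ⟨i', -, rfl⟩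
        refine ⟨mem_univ _, ?_⟩
        rw [mrg_e h]
        rfl
    rw [h1, card_image_of_injective _ h.mono.injective, card_univ, Fintype.card_fin]
  have hns : ∀ i, ns (fun i' => a (ε i')) i ≤ p i := by
    intro i
    refine le_trans ?_ (hkp i)
    unfold ns
    refine card_le_card_of_injOn ε (fun i' hi' => ?_) (h.mono.injective.injOn)
    have h3 := (mem_filter.1 (mem_coe.1 hi')).2
    refine mem_coe.2 (mem_filter.2 ⟨mem_univ _, K₁ i', mrg_e h K₁ i', ?_⟩)
    rw [hcK]
    exact h3
  have hck : ∑ i, Sum.elim cd (fun _ => 0) (q i) + k = c := by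
    have h1 : ∀ i, Sum.elim cd (fun _ => 1) (mrg q K₁ i) = Sum.elim cd (fun _ => 0) (q i) +
        if (mrg q K₁ i).isRight = true then 1 else 0 := by
      intro i
      unfold mrg
      rcases q i with b | i' <;> simp
    rw [← hc]
    simp_rw [h1]
    rw [sum_add_distrib, ← card_filter, hcard]
  obtain ⟨e, he⟩ : ∃ e, e = ∑ i, Sum.elim cd (fun _ => 0) (q i) := ⟨_, rfl⟩
  by_cases hje : j ≤ e
  · exact rho_coniv2 T cc d h cd a hd 0 j (by rw [← he]; omega) (ins20 T cc _ _)
  -- the main case
  obtain ⟨l, hl⟩ : ∃ l, l = (j - e + 1) / 2 := ⟨_, rfl⟩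
  refine rho_coniv2 T cc d h cd a hd l j (by rw [← he]; omega) ?_
  obtain ⟨Wq, hWq⟩ : ∃ Wq : Submodule ℚ ((Fin k → Fin n) → ℚ),
    Wq = W.map (LinearMap.funLeft ℚ ℚ (mrg q)) := ⟨_, rfl⟩
  have hcs : cspan Wq = (cspan W).map (LinearMap.funLeft ℂ ℂ (mrg q)) := by
    unfold cspan
    rw [Submodule.map_span, hWq]
    congr 1
    ext f
    constructor
    · rintro ⟨_, ⟨g, hg, rfl⟩, rfl⟩
      exact ⟨cx g, ⟨g, hg, rfl⟩, rfl⟩
    · rintro ⟨_, ⟨g, hg, rfl⟩, rfl⟩
      exact ⟨_, ⟨g, hg, rfl⟩, rfl⟩
  have hcomm : ∀ v : (Fin m → Fin s ⊕ Fin n) → ℂ,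
      LinearMap.funLeft ℂ ℂ (mrg q) (actL (T.xS s) v) =
        actL T.x (LinearMap.funLeft ℂ ℂ (mrg (n := n) q) v) := fun v => (act_comm T h v).symm
  have hle : Wq ≤ T.ins2 cc (fun i' => a (ε i')) l := by
    refine H k l _ hns Wq ?_ ?_ ?_
    · intro v hv K hK i'
      rw [hWq] at hv
      obtain ⟨v, hv, rfl⟩ := hv
      have h1 := (hWc v hv (mrg q K) hK).1 (ε i')
      rw [mrg_e h] at h1
      exact h1
    · intro v hv
      rw [hcs] at hv ⊢
      obtain ⟨v, hv, rfl⟩ := hv
      exact ⟨actL (T.xS s) v, hWs v hv, hcomm v⟩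
    · intro a ha v hv
      rw [hcs] at hv
      refine quot (actL (T.xS s)) (actL T.x) (LinearMap.funLeft ℂ ℂ (mrg q)) hcomm (cspan W)
        hWs (a : ℂ) ?_ v hv
      refine hWa a ?_
      have h1 : (c : ℤ) = e + k := by rw [he]; exact_mod_cast hck.symm
      omega
  apply hle
  rw [hWq]
  exact ⟨w, hw, rfl⟩

end

end Pool.Agent.W352.PG.Ghtp
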